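import Mathlib

/-!
# Ascent sequences, containment, minimality (for MP_b4bd03_co)
-/

set_option autoImplicit false

namespace Pool.Agent.R7.Asc

/-- The number of ascents of a finite sequence. -/
def asc : List ℕ → ℕ
  | [] => 0
  | [_] => 0
  | a :: b :: l => (if a < b then 1 else 0) + asc (b :: l)

/-- Ascent sequences: `σ₁ = 0` and `σᵢ ≤ 1 + asc (σ₁, …, σᵢ₋₁)` for `i ≥ 2`
(lists are indexed from `0`). -/
def IsAscSeq (σ : List ℕ) : Prop :=
  σ.getD 0 0 = 0 ∧ ∀ i, 1 ≤ i → i < σ.length → σ.getD i 0 ≤ 1 + asc (σ.take i)

/-- Two sequences of the same length are order-isomorphic. -/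
def OrdIso (s τ : List ℕ) : Prop :=
  s.length = τ.length ∧ ∀ a b, a < s.length → b < s.length →
    ((s.getD a 0 < s.getD b 0 ↔ τ.getD a 0 < τ.getD b 0) ∧
      (s.getD a 0 = s.getD b 0 ↔ τ.getD a 0 = τ.getD b 0))

/-- `σ` contains `τ`: some subsequence of `σ` is order-isomorphic to `τ`. -/
def Contains (σ τ : List ℕ) : Prop := ∃ s, s.Sublist σ ∧ OrdIso s τ

/-- The decreasing pattern `δ_k = (k-1, …, 1, 0)`. -/
def delta (k : ℕ) : List ℕ := (List.range k).reverse

/-- `σ` is a `ρ`-minimal ascent sequence. -/
def IsMinimal (ρ σ : List ℕ) : Prop :=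
  IsAscSeq σ ∧ Contains σ ρ ∧
    ∀ τ, IsAscSeq τ → Contains σ τ → τ.length < σ.length → ¬ Contains τ ρ

/-! ### Ascents -/

lemma asc_append_cons (l : List ℕ) (x : ℕ) (m : List ℕ) :
    asc (l ++ x :: m) = asc (l ++ [x]) + asc (x :: m) := by
  induction l with
  | nil => simp [asc]
  | cons a l ih =>
    cases l with
    | nil => simp [asc]
    | cons b l =>
      simp only [List.cons_append, asc] at ih ⊢
      omega

lemma asc_cons_cons (a b : ℕ) (l : List ℕ) :
    asc (a :: b :: l) = (if a < b then 1 else 0) + asc (b :: l) := rfl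

lemma asc_single (a : ℕ) : asc [a] = 0 := rfl

lemma asc_nil : asc [] = 0 := rfl

lemma asc_snoc (l : List ℕ) (x y : ℕ) :
    asc (l ++ [x, y]) = asc (l ++ [x]) + if x < y then 1 else 0 := by
  rw [asc_append_cons l x [y], asc_cons_cons, asc_single]
  omega

lemma asc_le_append (l m : List ℕ) : asc l ≤ asc (l ++ m) := by
  rcases List.eq_nil_or_concat l with rfl | ⟨l', x, rfl⟩
  · simp [asc]
  · rw [List.concat_eq_append, List.append_assoc, List.singleton_append,
      asc_append_cons l' x m]
    omega

lemma asc_insert_le (a : List ℕ) (u : ℕ) (b : List ℕ) :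
    asc (a ++ u :: b) ≤ asc (a ++ b) + 1 := by
  rcases List.eq_nil_or_concat a with rfl | ⟨a', p, rfl⟩
  · cases b with
    | nil => simp [asc]
    | cons y b =>
      simp only [List.nil_append, asc_cons_cons]
      split_ifs <;> omega
  · rw [List.concat_eq_append, List.append_assoc, List.singleton_append, List.append_assoc,
      List.singleton_append, asc_append_cons a' p (u :: b), asc_append_cons a' p b]
    cases b with
    | nil => rw [asc_cons_cons, asc_single, asc_single]; split_ifs <;> omega
    | cons y b =>
      simp only [asc_cons_cons]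
      split_ifs <;> omega

lemma asc_delete (a : List ℕ) (p x q : ℕ) (b : List ℕ)
    (h : (if p < x then 1 else 0) + (if x < q then 1 else 0) = (if p < q then (1 : ℕ) else 0)) :
    asc (a ++ p :: x :: q :: b) = asc (a ++ p :: q :: b) := by
  rw [asc_append_cons a p (x :: q :: b), asc_append_cons a p (q :: b)]
  simp only [asc_cons_cons]
  omega

/-- The bound on the next letter after a prefix `a`. -/
def bnd (a : List ℕ) : ℕ := if a = [] then 0 else 1 + asc a

lemma bnd_nil : bnd [] = 0 := rfl

lemma bnd_of_ne {a : List ℕ} (h : a ≠ []) : bnd a = 1 + asc a := by simp [bnd, h]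

lemma bnd_le_append (a b : List ℕ) : bnd a ≤ bnd (a ++ b) := by
  by_cases h : a = []
  · subst h; simp [bnd_nil]
  · have h' : a ++ b ≠ [] := by simp [h]
    rw [bnd_of_ne h, bnd_of_ne h']
    have := asc_le_append a b
    omega

lemma isAscSeq_iff (σ : List ℕ) :
    IsAscSeq σ ↔ ∀ a x b, σ = a ++ x :: b → x ≤ bnd a := by
  constructor
  · rintro ⟨h0, h1⟩ a x b rfl
    by_cases ha : a = []
    · subst ha
      simp at h0
      simp [h0, bnd_nil]
    · have hl : 1 ≤ a.length := by
        rcases Nat.eq_zero_or_pos a.length with h | h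
        · exact absurd (List.length_eq_zero_iff.mp h) ha
        · exact h
      have := h1 a.length hl (by simp)
      rw [List.getD_eq_getElem _ _ (by simp), List.getElem_append_right (le_refl _)] at this
      simp only [Nat.sub_self, List.getElem_cons_zero, List.take_left'] at this
      rw [bnd_of_ne ha]
      simpa using this
  · intro h
    constructor
    · cases σ with
      | nil => rfl
      | cons x b =>
        have := h [] x b rfl
        simp [bnd_nil] at this
        simp [this]
    · intro i hi hl
      have hdec : σ = σ.take i ++ σ[i] :: σ.drop (i + 1) := by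
        rw [← List.drop_eq_getElem_cons hl, List.take_append_drop]
      have := h _ _ _ hdec
      rw [bnd_of_ne] at this
      · rw [List.getD_eq_getElem _ _ hl]
        exact this
      · intro h0
        have : (σ.take i).length = 0 := by rw [h0]; rfl
        rw [List.length_take] at this
        omega

/-! ### Ranks -/

/-- The number of distinct letters of `l` that are smaller than `x`. -/
def rk (l : List ℕ) (x : ℕ) : ℕ := (l.toFinset.filter (· < x)).card

lemma rk_le (l : List ℕ) (x : ℕ) : rk l x ≤ x := by
  unfold rk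
  calc (l.toFinset.filter (· < x)).card ≤ (Finset.range x).card := by
        apply Finset.card_le_card
        intro y hy
        simp only [Finset.mem_filter] at hy
        exact Finset.mem_range.mpr hy.2
    _ = x := Finset.card_range x

lemma rk_lt_of_not_mem {l : List ℕ} {x u : ℕ} (hu : u ∉ l) (hux : u < x) : rk l x + 1 ≤ x := by
  unfold rk
  calc (l.toFinset.filter (· < x)).card + 1 ≤ ((Finset.range x).erase u).card + 1 := by
        gcongr
        intro y hy
        simp only [Finset.mem_filter, List.mem_toFinset] at hy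
        rw [Finset.mem_erase, Finset.mem_range]
        exact ⟨fun h => hu (h ▸ hy.1), hy.2⟩
    _ = x := by
        rw [Finset.card_erase_of_mem (Finset.mem_range.mpr hux), Finset.card_range]
        omega

lemma rk_mono (l : List ℕ) {x y : ℕ} (h : x ≤ y) : rk l x ≤ rk l y := by
  unfold rk
  apply Finset.card_le_card
  intro z hz
  simp only [Finset.mem_filter] at hz ⊢
  exact ⟨hz.1, by omega⟩

lemma rk_lt {l : List ℕ} {x y : ℕ} (hx : x ∈ l) (h : x < y) : rk l x < rk l y := by
  unfold rk
  apply Finset.card_lt_card
  rw [Finset.ssubset_iff_of_subset]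
  · exact ⟨x, by simp [hx, h], by simp⟩
  · intro z hz
    simp only [Finset.mem_filter] at hz ⊢
    exact ⟨hz.1, by omega⟩

lemma rk_lt_iff {l : List ℕ} {x y : ℕ} (hx : x ∈ l) (hy : y ∈ l) : rk l x < rk l y ↔ x < y := by
  constructor
  · intro h
    by_contra hc
    have := rk_mono l (not_lt.mp hc)
    omega
  · exact rk_lt hx

/-- `l` is valid if replacing letters by their ranks gives an ascent sequence. -/
def Valid (l : List ℕ) : Prop := ∀ a x b, l = a ++ x :: b → rk l x ≤ bnd a

lemma asc_map {f : ℕ → ℕ} {l : List ℕ} (h : ∀ x ∈ l, ∀ y ∈ l, (f x < f y ↔ x < y)) :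
    asc (l.map f) = asc l := by
  induction l with
  | nil => rfl
  | cons a l ih =>
    cases l with
    | nil => rfl
    | cons b l =>
      simp only [List.map_cons, asc_cons_cons] at ih ⊢
      rw [ih (fun x hx y hy => h x (List.mem_cons_of_mem _ hx) y (List.mem_cons_of_mem _ hy))]
      have := h a (by simp) b (by simp)
      simp only [this]

lemma red_isAscSeq {l : List ℕ} (h : Valid l) : IsAscSeq (l.map (rk l)) := by
  rw [isAscSeq_iff]
  intro a' x' b' hab
  rw [List.map_eq_append_iff] at hab
  obtain ⟨a, c, hl, rfl, hc⟩ := hab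
  rw [List.map_eq_cons_iff] at hc
  obtain ⟨x, b, rfl, rfl, rfl⟩ := hc
  have h1 := h a x b hl
  have h2 : bnd (a.map (rk l)) = bnd a := by
    unfold bnd
    rw [asc_map]
    · simp
    · intro x hx y hy
      apply rk_lt_iff
      · rw [hl]; exact List.mem_append_left _ hx
      · rw [hl]; exact List.mem_append_left _ hy
  rw [h2]
  exact h1

lemma ordIso_map (l : List ℕ) : OrdIso l (l.map (rk l)) := by
  refine ⟨by simp, ?_⟩
  intro a b ha hb
  rw [List.getD_eq_getElem _ _ ha, List.getD_eq_getElem _ _ hb,
    List.getD_eq_getElem _ _ (by simpa using ha), List.getD_eq_getElem _ _ (by simpa using hb),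
    List.getElem_map, List.getElem_map]
  have h1 := rk_lt_iff (l := l) (List.getElem_mem ha) (List.getElem_mem hb)
  have h2 := rk_lt_iff (l := l) (List.getElem_mem hb) (List.getElem_mem ha)
  omega

lemma delta_length (k : ℕ) : (delta k).length = k := by simp [delta]

lemma delta_getD (k a : ℕ) (h : a < k) : (delta k).getD a 0 = k - 1 - a := by
  unfold delta
  rw [List.getD_eq_getElem _ _ (by simpa using h), List.getElem_reverse, List.getElem_range]
  simp

lemma ordIso_delta_iff (s : List ℕ) (k : ℕ) :
    OrdIso s (delta k) ↔ s.length = k ∧ s.Pairwise (· > ·) := by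
  constructor
  · rintro ⟨h1, h2⟩
    rw [delta_length] at h1
    refine ⟨h1, ?_⟩
    rw [List.pairwise_iff_getElem]
    intro i j hi hj hij
    have := (h2 j i hj hi).1
    rw [List.getD_eq_getElem _ _ hi, List.getD_eq_getElem _ _ hj, delta_getD k i (by omega),
      delta_getD k j (by omega)] at this
    rw [gt_iff_lt, this]
    omega
  · rintro ⟨h1, h2⟩
    refine ⟨by rw [delta_length, h1], ?_⟩
    rw [List.pairwise_iff_getElem] at h2
    intro a b ha hb
    rw [List.getD_eq_getElem _ _ ha, List.getD_eq_getElem _ _ hb, delta_getD k a (by omega),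
      delta_getD k b (by omega)]
    rcases lt_trichotomy a b with h | h | h
    · have := h2 a b ha hb h
      omega
    · subst h; omega
    · have := h2 b a hb ha h
      omega

/-- The consequence of minimality that we use. -/
lemma not_valid_of_minimal {k : ℕ} {σ : List ℕ} (h : IsMinimal (delta k) σ) {l s : List ℕ}
    (hl : l.Sublist σ) (hlen : l.length < σ.length) (hs : s.Sublist l) (hk : s.length = k)
    (hp : s.Pairwise (· > ·)) : ¬ Valid l := by
  intro hv
  apply h.2.2 (l.map (rk l)) (red_isAscSeq hv) ⟨l, hl, ordIso_map l⟩ (by simpa using hlen)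
  refine ⟨s.map (rk l), hs.map _, ?_⟩
  rw [ordIso_delta_iff]
  refine ⟨by simpa using hk, ?_⟩
  rw [List.pairwise_map]
  apply hp.imp_of_mem
  intro a b ha hb hab
  exact rk_lt (hs.subset hb) hab

end Pool.Agent.R7.Asc
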