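import Pool.Agent.R7.Asc.Pot

/-!
# The length bounds
-/

set_option autoImplicit false

namespace Pool.Agent.R7.Asc

lemma need_le_one {S : Finset ℕ} :
    need S 1 [0, 1] = (if 0 ∈ S then 1 else 0) + (if 1 ∈ S then 1 else 0) ∧
    need S 0 [0, 1] = (if 0 ∈ S then 1 else 0) ∧
    bet S 1 = (if 0 ∈ S then 1 else 0) + (if 1 ∈ S then 1 else 0) := by
  have h1 : S.filter (· ≤ 1) = ({0, 1} : Finset ℕ).filter (· ∈ S) := by
    ext u
    simp only [Finset.mem_filter, Finset.mem_insert, Finset.mem_singleton]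
    constructor
    · rintro ⟨h1, h2⟩; exact ⟨by omega, h1⟩
    · rintro ⟨h1, h2⟩; exact ⟨h2, by omega⟩
  have h0 : S.filter (· ≤ 0) = ({0} : Finset ℕ).filter (· ∈ S) := by
    ext u
    simp only [Finset.mem_filter, Finset.mem_singleton]
    constructor
    · rintro ⟨h1, h2⟩; exact ⟨by omega, h1⟩
    · rintro ⟨h1, h2⟩; exact ⟨h2, by omega⟩
  unfold need bet
  rw [h1, h0]
  refine ⟨?_, ?_, ?_⟩
  · rw [Finset.sum_filter, Finset.sum_pair (by norm_num)]
    simp
  · rw [Finset.sum_filter, Finset.sum_singleton]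
    simp
  · rw [Finset.card_filter, Finset.sum_pair (by norm_num)]

/-- The bound on the length of the prefix given by a potential. -/
theorem prefix_bound {k : ℕ} {sc : ℤ} {G : ℕ → ℕ → ℕ → ℤ} (hk : 3 ≤ k)
    (hG : Pot (2 * (k - 2)) sc G) {P : List ℕ} {S : Finset ℕ} (hP : Good k P S)
    (h3 : 3 ≤ P.length) {K : ℤ}
    (hK1 : 4 * sc + G 0 1 1 ≤ K) (hK2 : 3 * sc + G 1 1 0 ≤ K) (hK3 : 3 * sc + G 1 0 1 ≤ K)
    (hK4 : 2 * sc + G 2 0 0 ≤ K) :
    sc * P.length + G (2 * (k - 2)) 0 0 ≤ K := by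
  have hSP : ∀ u ∈ S, u ∈ P := by
    intro u hu
    have := hP.c2 u hu
    exact List.count_pos_iff.mp (by omega)
  -- the last letter
  have hsplit : ∃ a x y, P = a ++ [x, y] := by
    rcases List.eq_nil_or_concat P with rfl | ⟨P', y, rfl⟩
    · simp at h3
    · rcases List.eq_nil_or_concat P' with rfl | ⟨a, x, rfl⟩
      · simp at h3
      · exact ⟨a, x, y, by simp⟩
  have hlow := hP.low
  have hlast : ∀ a x y, P = a ++ [x, y] → x < y := by
    intro a x y hPa
    by_contra hc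
    have h1 := hP.c3 (a ++ [x]) [y] (by rw [hPa]; simp) (by simp) (by simp)
    rw [hPa, asc_snoc, if_neg hc] at hlow
    omega
  have hT : 2 * (k - 2) + 2 * S.card = 2 * asc P := by
    obtain ⟨a, x, y, hPa⟩ := hsplit
    have h1 := hP.c3 (a ++ [x]) [y] (by rw [hPa]; simp) (by simp) (by simp)
    have h2 := hlast a x y hPa
    have h4 : asc P = asc (a ++ [x]) + 1 := by
      rw [hPa, asc_snoc, if_pos h2]
    omega
  -- the first letters
  obtain ⟨p, x, q, b, hPb⟩ : ∃ p x q b, P = p :: x :: q :: b := by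
    match P, h3 with
    | p :: x :: q :: b, _ => exact ⟨p, x, q, b, rfl⟩
  have hp : p = 0 := by
    have := hP.val [] p (x :: q :: b) (by rw [hPb]; rfl)
    rw [bnd_nil] at this
    omega
  have hx : x = 1 := by
    have h1 := hP.val [p] x (q :: b) (by rw [hPb]; rfl)
    rw [bnd_of_ne (by simp), asc_single] at h1
    by_contra hne
    have hx0 : x = 0 := by omega
    have h2 := hP.c1 [] p x q b (by rw [hPb]; rfl)
    rw [hp, hx0, up_neg (lt_irrefl 0)] at h2
    omega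
  subst hp; subst hx
  obtain ⟨hn1, hn0, hb1⟩ := need_le_one (S := S)
  have hc := core hG hP hSP hT hlast (q :: b).length (q :: b) [] 0 1 1 (2 - bet S 1)
    (le_refl _) (by rw [hPb]; rfl) (by norm_num)
    (by intro z hz; simp at hz; omega)
    (by simp [asc])
    (by
      have h5 : bet S 1 ≤ 2 := bet_le S 1
      have h6 : asc [0, 1] = 1 := by simp [asc]
      simp only [List.nil_append]
      rw [h6]
      rw [hn1, ← hb1]
      omega)
  simp only [List.nil_append] at hc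
  rw [hn1, hn0, hb1] at hc
  have hc2 := hc.2
  by_cases h0 : 0 ∈ S <;> by_cases h1 : 1 ∈ S <;>
    simp only [h0, h1, if_true, if_false, List.length_cons, List.length_nil] at hc2 <;>
    norm_num at hc2 <;> linarith

/-! ### The quadratic potential -/

/-- The quadratic potential. -/
def quad (B l h : ℕ) : ℤ := -(B : ℤ) ^ 2 - 8 * B + l - h

lemma quad_pot (T : ℕ) : Pot T 3 quad where
  mono := by intro B l h _ _ _; unfold quad; push_cast; linarith
  ll := by intro B l h _ _ _; unfold quad; push_cast; linarith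
  lh := by intro B l h _ _ _; unfold quad; push_cast; linarith
  le := by
    intro B l h _ _ _; unfold quad; push_cast
    nlinarith
  eh := by
    intro B l h _ _ _; unfold quad; push_cast
    nlinarith
  ee := by
    intro B l h _ _ _; unfold quad; push_cast
    nlinarith
  c1 := by
    intro B l h _ h1 h2 _; unfold quad
    have h1' : (l : ℤ) + h ≤ B + 2 := by exact_mod_cast h1
    have h3 : ((l + h - 1 : ℕ) : ℤ) = (l : ℤ) + h - 1 := by omega
    rw [h3]; push_cast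
    nlinarith
  c0 := by
    intro B l h _ h1 _; unfold quad
    have h1' : (l : ℤ) + h ≤ B + 2 := by exact_mod_cast h1
    push_cast
    nlinarith
  rb := by
    intro B l h g _ h1 h2 h3 _; unfold quad
    have h3' : 2 * (g : ℤ) + (l + h) ≤ B + 4 := by exact_mod_cast h3
    have h4 : ((2 * g - 1 : ℕ) : ℤ) = 2 * (g : ℤ) - 1 := by omega
    rw [h4]; push_cast
    nlinarith
  rn := by
    intro B l h g _ h1 h3 _; unfold quad
    have h3' : 2 * (g : ℤ) + (l + h) ≤ B + 2 := by exact_mod_cast h3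
    push_cast
    nlinarith

/-! ### Potentials given by finite tables -/

/-- The finite check behind `Pot`, at one state. -/
def ChkState (T : ℕ) (sc : ℤ) (G : ℕ → ℕ → ℕ → ℤ) (B l h : ℕ) : Prop :=
  ((1 ≤ l → G B (l - 1) (h + 1) ≤ G B l h) ∧
    (2 ≤ l → G B (l - 2) h ≤ G B l h) ∧
    (1 ≤ l → 1 ≤ h → G B (l - 1) (h - 1) ≤ G B l h)) ∧
  ((B + 1 ≤ T → 1 ≤ l → G (B + 1) (l - 1) h + sc ≤ G B l h) ∧
    (B + 1 ≤ T → 1 ≤ h → G (B + 1) l (h - 1) + sc ≤ G B l h) ∧
    (B + 2 ≤ T → G (B + 2) l h + 2 * sc ≤ G B l h)) ∧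
  ((B + 1 ≤ T → 1 ≤ l + h → G (B + 1) (l + h - 1) 0 ≤ G B l h) ∧
    (B + 2 ≤ T → G (B + 2) (l + h) 0 + sc ≤ G B l h)) ∧
  (B + 1 ≤ T → ∀ g < B + 4, 1 ≤ g → 2 * g + (l + h) ≤ B + 4 →
      G (B + 1) (l + h) (2 * g - 1) + 2 * (g : ℤ) * sc ≤ G B l h) ∧
  (B + 2 ≤ T → ∀ g < B + 4, 2 * g + (l + h) ≤ B + 2 →
      G (B + 2) (l + h) (2 * g) + (2 * (g : ℤ) + 1) * sc ≤ G B l h)

/-- The finite check behind `Pot` at one state, as a Boolean. -/
def chkState (T : ℕ) (sc : ℤ) (G : ℕ → ℕ → ℕ → ℤ) (B l h : ℕ) : Bool :=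
  decide (1 ≤ l → G B (l - 1) (h + 1) ≤ G B l h) &&
  decide (2 ≤ l → G B (l - 2) h ≤ G B l h) &&
  decide (1 ≤ l → 1 ≤ h → G B (l - 1) (h - 1) ≤ G B l h) &&
  decide (B + 1 ≤ T → 1 ≤ l → G (B + 1) (l - 1) h + sc ≤ G B l h) &&
  decide (B + 1 ≤ T → 1 ≤ h → G (B + 1) l (h - 1) + sc ≤ G B l h) &&
  decide (B + 2 ≤ T → G (B + 2) l h + 2 * sc ≤ G B l h) &&
  decide (B + 1 ≤ T → 1 ≤ l + h → G (B + 1) (l + h - 1) 0 ≤ G B l h) &&
  decide (B + 2 ≤ T → G (B + 2) (l + h) 0 + sc ≤ G B l h) &&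
  decide (B + 1 ≤ T → ∀ g < B + 4, 1 ≤ g → 2 * g + (l + h) ≤ B + 4 →
      G (B + 1) (l + h) (2 * g - 1) + 2 * (g : ℤ) * sc ≤ G B l h) &&
  decide (B + 2 ≤ T → ∀ g < B + 4, 2 * g + (l + h) ≤ B + 2 →
      G (B + 2) (l + h) (2 * g) + (2 * (g : ℤ) + 1) * sc ≤ G B l h)

lemma of_chkState {T : ℕ} {sc : ℤ} {G : ℕ → ℕ → ℕ → ℤ} {B l h : ℕ}
    (hc : chkState T sc G B l h = true) : ChkState T sc G B l h := by
  unfold chkState at hc
  simp only [Bool.and_eq_true, decide_eq_true_eq] at hc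
  obtain ⟨⟨⟨⟨⟨⟨⟨⟨⟨h1, h2⟩, h3⟩, h4⟩, h5⟩, h6⟩, h7⟩, h8⟩, h9⟩, h10⟩ := hc
  exact ⟨⟨h1, h2, h3⟩, ⟨h4, h5, h6⟩, ⟨h7, h8⟩, h9, h10⟩

/-- The finite check behind `Pot`. -/
def chk (T : ℕ) (sc : ℤ) (G : ℕ → ℕ → ℕ → ℤ) : Bool :=
  (List.range (T + 1)).all fun B => (List.range (B + 3)).all fun l =>
    (List.range (B + 3 - l)).all fun h =>
      decide ((B + (l + h)) % 2 = 1) || chkState T sc G B l h

lemma chk_state {T : ℕ} {sc : ℤ} {G : ℕ → ℕ → ℕ → ℤ} (hc : chk T sc G = true) {B l h : ℕ}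
    (hB : B ≤ T) (hN : l + h ≤ B + 2) (hp : (B + (l + h)) % 2 = 0) : ChkState T sc G B l h := by
  unfold chk at hc
  rw [List.all_eq_true] at hc
  have h1 := hc B (List.mem_range.mpr (by omega))
  rw [List.all_eq_true] at h1
  have h2 := h1 l (List.mem_range.mpr (by omega))
  rw [List.all_eq_true] at h2
  have h3 := h2 h (List.mem_range.mpr (by omega))
  rw [Bool.or_eq_true, decide_eq_true_eq] at h3
  rcases h3 with h3 | h3
  · omega
  · exact of_chkState h3

lemma pot_of_chk {T : ℕ} {sc : ℤ} {G : ℕ → ℕ → ℕ → ℤ} (h : chk T sc G = true) : Pot T sc G where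
  mono := by
    intro B l m hB hN hp
    have := (chk_state h hB (l := l + 1) (h := m) (by omega)
      (by rw [← hp]; congr 1; omega)).1.1 (by omega)
    simpa using this
  ll := by
    intro B l m hB hN hp
    have := (chk_state h hB (l := l + 2) (h := m) (by omega) hp).1.2.1 (by omega)
    simpa using this
  lh := by
    intro B l m hB hN hp
    have := (chk_state h hB (l := l + 1) (h := m + 1) (by omega) hp).1.2.2 (by omega) (by omega)
    simpa using this
  le := by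
    intro B l m hB hN hp
    have := (chk_state h (B := B) (by omega) (l := l + 1) (h := m) (by omega) hp).2.1.1 hB
      (by omega)
    simpa using this
  eh := by
    intro B l m hB hN hp
    have := (chk_state h (B := B) (by omega) (l := l) (h := m + 1) (by omega) hp).2.1.2.1 hB
      (by omega)
    simpa using this
  ee := by
    intro B l m hB hN hp
    exact (chk_state h (B := B) (by omega) (l := l) (h := m) (by omega) hp).2.1.2.2 hB
  c1 := by
    intro B l m hB hN h1 hp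
    exact (chk_state h (B := B) (by omega) (l := l) (h := m) (by omega) hp).2.2.1.1 hB h1
  c0 := by
    intro B l m hB hN hp
    exact (chk_state h (B := B) (by omega) (l := l) (h := m) (by omega) hp).2.2.1.2 hB
  rb := by
    intro B l m g hB hN hg h1 hp
    exact (chk_state h (B := B) (by omega) (l := l) (h := m) (by omega) hp).2.2.2.1 hB g
      (by omega) hg h1
  rn := by
    intro B l m g hB hN h1 hp
    exact (chk_state h (B := B) (by omega) (l := l) (h := m) (by omega) hp).2.2.2.2 hB g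
      (by omega) h1

/-- Reading a table. -/
def look (tab : List (List (List ℤ))) (B l h : ℕ) : ℤ := ((tab.getD B []).getD l []).getD h 0

/-- The table for `k = 4`. -/
def tab4 : List (List (List ℤ)) :=
  [[[14,0,14],[0,14],[14]],
   [[0,12,0,10],[12,0,12],[0,12],[12]],
   [[8,0,8,0,6],[0,8,0,8],[8,0,8],[0,8],[8]],
   [[0,2,0,4,0,2],[2,0,4,0,4],[0,4,0,4],[4,0,4],[0,4],[4]],
   [[0,0,-1000,0,-1000,0,-1000],[0,0,0,-1000,0,-1000],[0,0,0,0,-1000],[0,0,0,0],[0,0,0],[0,0],[0]]]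

/-- The table for `k = 5`. -/
def tab5 : List (List (List ℤ)) :=
  [[[24,0,24],[0,24],[24]],
   [[0,22,0,20],[22,0,22],[0,22],[22]],
   [[18,0,18,0,16],[0,18,0,18],[18,0,18],[0,18],[18]],
   [[0,14,0,14,0,12],[14,0,14,0,14],[0,14,0,14],[14,0,14],[0,14],[14]],
   [[10,0,10,0,8,0,6],[0,10,0,10,0,8],[10,0,10,0,10],[0,10,0,10],[10,0,10],[0,10],[10]],
   [[0,2,0,4,0,4,0,2],[2,0,4,0,4,0,4],[0,4,0,4,0,4],[4,0,4,0,4],[0,4,0,4],[4,0,4],[0,4],[4]],
   [[0,0,-1000,0,-1000,0,-1000,0,-1000],[0,0,0,-1000,0,-1000,0,-1000],[0,0,0,0,-1000,0,-1000],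
    [0,0,0,0,0,-1000],[0,0,0,0,0],[0,0,0,0],[0,0,0],[0,0],[0]]]

lemma pot4 : Pot 4 1 (look tab4) := pot_of_chk (by decide +kernel)

lemma pot5 : Pot 6 1 (look tab5) := pot_of_chk (by decide +kernel)

/-! ### The bounds -/

theorem general_bound {k : ℕ} (hk : 3 ≤ k) {σ : List ℕ} (h : IsMinimal (delta k) σ) :
    3 * σ.length + 4 ≤ 4 * k ^ 2 + 3 * k := by
  obtain ⟨P, S, hl, hP⟩ := exists_good hk h
  obtain ⟨t, rfl⟩ : ∃ t, k = t + 3 := ⟨k - 3, by omega⟩
  by_cases h3 : 3 ≤ P.length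
  · have := prefix_bound hk (quad_pot _) hP h3 (K := 12) (by norm_num [quad]) (by norm_num [quad])
      (by norm_num [quad]) (by norm_num [quad])
    rw [show t + 3 - 2 = t + 1 by omega] at this
    unfold quad at this
    push_cast at this
    zify
    rw [hl]
    push_cast
    nlinarith
  · rw [hl]
    nlinarith

theorem bound4 {σ : List ℕ} (h : IsMinimal (delta 4) σ) : σ.length ≤ 22 := by
  obtain ⟨P, S, hl, hP⟩ := exists_good (by norm_num) h
  by_cases h3 : 3 ≤ P.length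
  · have := prefix_bound (by norm_num) pot4 hP h3 (K := 18) (by decide) (by decide)
      (by decide) (by decide)
    have h0 : look tab4 (2 * (4 - 2)) 0 0 = 0 := by decide
    rw [h0] at this
    omega
  · omega

theorem bound5 {σ : List ℕ} (h : IsMinimal (delta 5) σ) : σ.length ≤ 33 := by
  obtain ⟨P, S, hl, hP⟩ := exists_good (by norm_num) h
  by_cases h3 : 3 ≤ P.length
  · have := prefix_bound (by norm_num) pot5 hP h3 (K := 28) (by decide) (by decide)
      (by decide) (by decide)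
    have h0 : look tab5 (2 * (5 - 2)) 0 0 = 0 := by decide
    rw [h0] at this
    omega
  · omega

end Pool.Agent.R7.Asc
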