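import Pool.Agent.R7.Asc.Struct

/-!
# The potential argument
-/

set_option autoImplicit false

namespace Pool.Agent.R7.Asc

/-- The number of missing occurrences (out of two) of the letters of `S` that are at most `c`. -/
def need (S : Finset ℕ) (c : ℕ) (π : List ℕ) : ℕ := ∑ u ∈ S.filter (· ≤ c), (2 - π.count u)

/-- The number of letters of `S` that are at most `c`. -/
def bet (S : Finset ℕ) (c : ℕ) : ℕ := (S.filter (· ≤ c)).card

lemma need_snoc (S : Finset ℕ) (c : ℕ) (π : List ℕ) (z : ℕ) :
    need S c π = need S c (π ++ [z]) + if z ∈ S ∧ z ≤ c ∧ π.count z < 2 then 1 else 0 := by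
  unfold need
  by_cases hz : z ∈ S.filter (· ≤ c)
  · rw [← Finset.add_sum_erase _ _ hz, ← Finset.add_sum_erase _ _ hz]
    have h1 : ∑ u ∈ (S.filter (· ≤ c)).erase z, (2 - (π ++ [z]).count u) =
        ∑ u ∈ (S.filter (· ≤ c)).erase z, (2 - π.count u) := by
      apply Finset.sum_congr rfl
      intro u hu
      have hne : z ≠ u := (Finset.ne_of_mem_erase hu).symm
      rw [List.count_append, List.count_singleton]
      simp [hne]
    rw [h1, List.count_append, List.count_singleton_self]
    rw [Finset.mem_filter] at hz
    simp only [hz.1, hz.2, true_and]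
    split_ifs <;> omega
  · have h1 : ∑ u ∈ S.filter (· ≤ c), (2 - (π ++ [z]).count u) =
        ∑ u ∈ S.filter (· ≤ c), (2 - π.count u) := by
      apply Finset.sum_congr rfl
      intro u hu
      have hne : z ≠ u := by rintro rfl; exact hz hu
      rw [List.count_append, List.count_singleton]
      simp [hne]
    rw [h1, if_neg, add_zero]
    rintro ⟨h2, h3, -⟩
    exact hz (Finset.mem_filter.mpr ⟨h2, h3⟩)

lemma need_mono (S : Finset ℕ) (π : List ℕ) {c c' : ℕ} (h : c ≤ c') :
    need S c π ≤ need S c' π := by
  unfold need
  apply Finset.sum_le_sum_of_subset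
  intro u hu
  rw [Finset.mem_filter] at hu ⊢
  exact ⟨hu.1, hu.2.trans h⟩

lemma bet_mono (S : Finset ℕ) {c c' : ℕ} (h : c ≤ c') : bet S c ≤ bet S c' := by
  unfold bet
  apply Finset.card_le_card
  intro u hu
  rw [Finset.mem_filter] at hu ⊢
  exact ⟨hu.1, hu.2.trans h⟩

lemma bet_le (S : Finset ℕ) (c : ℕ) : bet S c ≤ c + 1 := by
  unfold bet
  calc (S.filter (· ≤ c)).card ≤ (Finset.range (c + 1)).card := by
        apply Finset.card_le_card
        intro u hu
        rw [Finset.mem_filter] at hu
        rw [Finset.mem_range]
        omega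
    _ = c + 1 := Finset.card_range _

lemma bet_le_of_not_mem (S : Finset ℕ) {c : ℕ} (hc : c ∉ S) : bet S c ≤ c := by
  unfold bet
  calc (S.filter (· ≤ c)).card ≤ (Finset.range c).card := by
        apply Finset.card_le_card
        intro u hu
        rw [Finset.mem_filter] at hu
        rw [Finset.mem_range]
        have : u ≠ c := by rintro rfl; exact hc hu.1
        omega
    _ = c := Finset.card_range _

lemma need_record (S : Finset ℕ) (π : List ℕ) {M z : ℕ} (hM : M ≤ z) (hπ : ∀ y ∈ π, y ≤ M) :
    need S z π + 2 * bet S M = need S M π + 2 * bet S z := by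
  unfold need bet
  have h1 : S.filter (· ≤ z) = S.filter (· ≤ M) ∪ S.filter (fun u => M < u ∧ u ≤ z) := by
    ext u
    simp only [Finset.mem_filter, Finset.mem_union]
    constructor
    · rintro ⟨h1, h2⟩
      by_cases h : u ≤ M
      · exact Or.inl ⟨h1, h⟩
      · exact Or.inr ⟨h1, by omega, h2⟩
    · rintro (⟨h1, h2⟩ | ⟨h1, h2, h3⟩)
      · exact ⟨h1, by omega⟩
      · exact ⟨h1, h3⟩
  have h2 : Disjoint (S.filter (· ≤ M)) (S.filter (fun u => M < u ∧ u ≤ z)) := by
    rw [Finset.disjoint_left]
    intro u hu hu'
    rw [Finset.mem_filter] at hu hu'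
    omega
  rw [h1, Finset.sum_union h2, Finset.card_union_of_disjoint h2]
  have h3 : ∑ u ∈ S.filter (fun u => M < u ∧ u ≤ z), (2 - π.count u) =
      2 * (S.filter (fun u => M < u ∧ u ≤ z)).card := by
    rw [mul_comm, ← smul_eq_mul, ← Finset.sum_const]
    apply Finset.sum_congr rfl
    intro u hu
    rw [Finset.mem_filter] at hu
    have : π.count u = 0 := by
      rw [List.count_eq_zero]
      intro h
      have := hπ u h
      omega
    omega
  rw [h3]
  ring

/-- A potential: `G B l h` bounds the (scaled) remaining gain. -/
structure Pot (T : ℕ) (sc : ℤ) (G : ℕ → ℕ → ℕ → ℤ) : Prop where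
  mono : ∀ B l h, B ≤ T → l + h + 1 ≤ B + 2 → (B + (l + h + 1)) % 2 = 0 →
    G B l (h + 1) ≤ G B (l + 1) h
  ll : ∀ B l h, B ≤ T → l + 2 + h ≤ B + 2 → (B + (l + 2 + h)) % 2 = 0 → G B l h ≤ G B (l + 2) h
  lh : ∀ B l h, B ≤ T → l + 1 + (h + 1) ≤ B + 2 → (B + (l + 1 + (h + 1))) % 2 = 0 →
    G B l h ≤ G B (l + 1) (h + 1)
  le : ∀ B l h, B + 1 ≤ T → l + 1 + h ≤ B + 2 → (B + (l + 1 + h)) % 2 = 0 →
    G (B + 1) l h + sc ≤ G B (l + 1) h
  eh : ∀ B l h, B + 1 ≤ T → l + (h + 1) ≤ B + 2 → (B + (l + (h + 1))) % 2 = 0 →
    G (B + 1) l h + sc ≤ G B l (h + 1)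
  ee : ∀ B l h, B + 2 ≤ T → l + h ≤ B + 2 → (B + (l + h)) % 2 = 0 →
    G (B + 2) l h + 2 * sc ≤ G B l h
  c1 : ∀ B l h, B + 1 ≤ T → l + h ≤ B + 2 → 1 ≤ l + h → (B + (l + h)) % 2 = 0 →
    G (B + 1) (l + h - 1) 0 ≤ G B l h
  c0 : ∀ B l h, B + 2 ≤ T → l + h ≤ B + 2 → (B + (l + h)) % 2 = 0 →
    G (B + 2) (l + h) 0 + sc ≤ G B l h
  rb : ∀ B l h g, B + 1 ≤ T → l + h ≤ B + 2 → 1 ≤ g → 2 * g + (l + h) ≤ B + 4 →
    (B + (l + h)) % 2 = 0 → G (B + 1) (l + h) (2 * g - 1) + 2 * g * sc ≤ G B l h
  rn : ∀ B l h g, B + 2 ≤ T → l + h ≤ B + 2 → 2 * g + (l + h) ≤ B + 2 →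
    (B + (l + h)) % 2 = 0 → G (B + 2) (l + h) (2 * g) + (2 * g + 1) * sc ≤ G B l h

lemma Pot.mono' {T : ℕ} {sc : ℤ} {G : ℕ → ℕ → ℕ → ℤ} (hG : Pot T sc G) {B : ℕ} (hB : B ≤ T)
    {N : ℕ} (hN : N ≤ B + 2) (hp : (B + N) % 2 = 0) :
    ∀ d l, l + d ≤ N → G B l (N - l) ≤ G B (l + d) (N - (l + d)) := by
  intro d
  induction d with
  | zero => intro l _; exact le_refl _
  | succ d ih =>
    intro l hl
    have h1 := ih l (by omega)
    have h2 := hG.mono B (l + d) (N - (l + d + 1)) hB (by omega)
      (by rw [show l + d + (N - (l + d + 1)) + 1 = N by omega]; exact hp)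
    rw [show N - (l + d + 1) + 1 = N - (l + d) by omega] at h2
    calc _ ≤ _ := h1
      _ ≤ _ := h2

lemma Pot.mono'' {T : ℕ} {sc : ℤ} {G : ℕ → ℕ → ℕ → ℤ} (hG : Pot T sc G) {B : ℕ} (hB : B ≤ T)
    {N : ℕ} (hN : N ≤ B + 2) (hp : (B + N) % 2 = 0) {l L : ℕ} (h1 : l ≤ L) (h2 : L ≤ N) :
    G B l (N - l) ≤ G B L (N - L) := by
  have := hG.mono' hB hN hp (L - l) l (by omega)
  rwa [show l + (L - l) = L by omega] at this

/-- The core of the argument: the potential does not increase along the prefix `P`. -/
theorem core {T k : ℕ} {sc : ℤ} {G : ℕ → ℕ → ℕ → ℤ} (hG : Pot T sc G) {P : List ℕ} {S : Finset ℕ}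
    (hP : Good k P S) (hSP : ∀ u ∈ S, u ∈ P) (hT : T + 2 * S.card = 2 * asc P)
    (hlast : ∀ a x y, P = a ++ [x, y] → x < y) :
    ∀ (n : ℕ) (s π : List ℕ) (x y M B : ℕ), s.length ≤ n → P = π ++ x :: y :: s → x < y →
      (∀ z ∈ π ++ [x, y], z ≤ M) → M ≤ asc (π ++ [x, y]) →
      B + 2 * bet S M = need S M (π ++ [x, y]) + 2 * asc (π ++ [x, y]) →
      B ≤ T ∧ sc * P.length + G T 0 0 ≤
        sc * ((π ++ [x, y]).length + need S M (π ++ [x, y])) +
        G B (need S x (π ++ [x, y])) (need S M (π ++ [x, y]) - need S x (π ++ [x, y])) := by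
  intro n
  induction n with
  | zero =>
    intro s π x y M B hs hPs hxy hM hMa hB
    have hs0 : s = [] := List.length_eq_zero_iff.mp (by omega)
    subst hs0
    have hSM : S.filter (· ≤ M) = S := by
      apply Finset.filter_true_of_mem
      intro u hu
      apply hM
      have := hSP u hu
      rwa [hPs] at this
    have hneed : need S M (π ++ [x, y]) = 0 := by
      unfold need
      apply Finset.sum_eq_zero
      intro u hu
      have := hP.c2 u (Finset.mem_filter.mp hu).1
      rw [hPs] at this
      omega
    have hneed' : need S x (π ++ [x, y]) = 0 := by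
      have hxM : x ≤ M := hM x (by simp)
      have := need_mono S (π ++ [x, y]) hxM
      omega
    have hbet : bet S M = S.card := by unfold bet; rw [hSM]
    rw [hneed, hbet, ← hPs] at hB
    have hBT : B = T := by omega
    rw [hneed, hneed', ← hPs, hBT]
    simp
  | succ n ih =>
    intro s π x y M B hs hPs hxy hM hMa hB
    cases s with
    | nil => exact ih [] π x y M B (by simp) hPs hxy hM hMa hB
    | cons z s =>
      have hxM : x ≤ M := hM x (by simp)
      have hyM : y ≤ M := hM y (by simp)
      set π₁ : List ℕ := π ++ [x, y] with hπ₁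
      have hbM := bet_le S M
      have hN0 : need S M π₁ ≤ B + 2 := by omega
      have hl0 : need S x π₁ ≤ need S M π₁ := need_mono S π₁ hxM
      by_cases hyz : y < z
      · -- the run continues
        have hasc : asc (π₁ ++ [z]) = asc π₁ + 1 := by
          rw [hπ₁, show π ++ [x, y] ++ [z] = (π ++ [x]) ++ [y, z] by simp, asc_snoc, if_pos hyz]
          simp
        have hlen : (π₁ ++ [z]).length = π₁.length + 1 := by simp
        have hπ₂ : (π ++ [x]) ++ [y, z] = π₁ ++ [z] := by simp [hπ₁]
        have hPs' : P = (π ++ [x]) ++ y :: z :: s := by rw [hPs]; simp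
        by_cases hzM : z ≤ M
        · -- not a record
          have e1 := need_snoc S M π₁ z
          have key : ∀ B₂, B₂ + 2 * bet S M = need S M (π₁ ++ [z]) + 2 * asc (π₁ ++ [z]) →
              B₂ ≤ T ∧ sc * P.length + G T 0 0 ≤
              sc * ((π₁ ++ [z]).length + need S M (π₁ ++ [z])) +
              G B₂ (need S y (π₁ ++ [z])) (need S M (π₁ ++ [z]) - need S y (π₁ ++ [z])) := by
            intro B₂ hB₂
            have := ih s (π ++ [x]) y z M B₂ (by simpa using hs) hPs' hyz
              (by
                rw [hπ₂]
                intro w hw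
                rw [List.mem_append, List.mem_singleton] at hw
                rcases hw with hw | rfl
                · exact hM w hw
                · exact hzM)
              (by rw [hπ₂, hasc]; omega)
              (by rw [hπ₂]; exact hB₂)
            rwa [hπ₂] at this
          have hmy : need S y (π₁ ++ [z]) ≤ need S M (π₁ ++ [z]) := need_mono S _ hyM
          split_ifs at e1 with hu
          · obtain ⟨hB₂T, hI⟩ := key (B + 1) (by omega)
            refine ⟨by omega, ?_⟩
            have hm := hG.mono'' hB₂T (N := need S M (π₁ ++ [z])) (by omega) (by omega) hmy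
              (le_refl _)
            rw [Nat.sub_self] at hm
            have hc := hG.c1 B (need S x π₁) (need S M π₁ - need S x π₁) hB₂T (by omega)
              (by omega) (by omega)
            rw [show need S x π₁ + (need S M π₁ - need S x π₁) - 1 = need S M (π₁ ++ [z]) by
              omega] at hc
            rw [hlen] at hI
            have e2 : (π₁.length : ℤ) + (need S M π₁ : ℤ) =
                ((π₁.length + 1 : ℕ) : ℤ) + (need S M (π₁ ++ [z]) : ℤ) := by
              push_cast; omega
            rw [e2]
            linarith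
          · obtain ⟨hB₂T, hI⟩ := key (B + 2) (by omega)
            refine ⟨by omega, ?_⟩
            have hm := hG.mono'' hB₂T (N := need S M (π₁ ++ [z])) (by omega) (by omega) hmy
              (le_refl _)
            rw [Nat.sub_self] at hm
            have hc := hG.c0 B (need S x π₁) (need S M π₁ - need S x π₁) hB₂T (by omega)
              (by omega)
            rw [show need S x π₁ + (need S M π₁ - need S x π₁) = need S M (π₁ ++ [z]) by
              omega] at hc
            rw [hlen] at hI
            have e2 : ((π₁.length + 1 : ℕ) : ℤ) + (need S M (π₁ ++ [z]) : ℤ) =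
                (π₁.length : ℤ) + (need S M π₁ : ℤ) + 1 := by
              push_cast; omega
            rw [e2] at hI
            have e3 : sc * ((π₁.length : ℤ) + (need S M π₁ : ℤ) + 1) =
                sc * ((π₁.length : ℤ) + (need S M π₁ : ℤ)) + sc := by ring
            linarith
        · -- a record
          push Not at hzM
          have hzb : z ≤ 1 + asc π₁ := by
            have := hP.val π₁ z s (by rw [hPs, hπ₁]; simp)
            rwa [bnd_of_ne (by simp [hπ₁])] at this
          have e0 := need_record S π₁ hzM.le hM
          have hbmono := bet_mono S hzM.le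
          have e1 := need_snoc S z π₁ z
          have hcz : π₁.count z = 0 := by
            rw [List.count_eq_zero]
            intro h
            have := hM z h
            omega
          have e1' : need S y π₁ = need S y (π₁ ++ [z]) := by
            have := need_snoc S y π₁ z
            rwa [if_neg (by rintro ⟨-, h, -⟩; omega), add_zero] at this
          have hmyM : need S y π₁ ≤ need S M π₁ := need_mono S _ hyM
          have key : ∀ B₂, B₂ + 2 * bet S z = need S z (π₁ ++ [z]) + 2 * asc (π₁ ++ [z]) →
              B₂ ≤ T ∧ sc * P.length + G T 0 0 ≤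
              sc * ((π₁ ++ [z]).length + need S z (π₁ ++ [z])) +
              G B₂ (need S y (π₁ ++ [z])) (need S z (π₁ ++ [z]) - need S y (π₁ ++ [z])) := by
            intro B₂ hB₂
            have := ih s (π ++ [x]) y z z B₂ (by simpa using hs) hPs' hyz
              (by
                rw [hπ₂]
                intro w hw
                rw [List.mem_append, List.mem_singleton] at hw
                rcases hw with hw | rfl
                · exact (hM w hw).trans hzM.le
                · exact le_refl _)
              (by rw [hπ₂, hasc]; omega)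
              (by rw [hπ₂]; exact hB₂)
            rwa [hπ₂] at this
          rw [hcz] at e1
          by_cases hzS : z ∈ S
          · rw [if_pos ⟨hzS, le_refl _, by norm_num⟩] at e1
            have hbz := bet_le S z
            have hg1 : bet S M + 1 ≤ bet S z := by
              have h3 : bet S (z - 1) + 1 ≤ bet S z := by
                unfold bet
                rw [← Finset.card_insert_of_notMem
                  (show z ∉ S.filter (· ≤ z - 1) by simp only [Finset.mem_filter]; omega)]
                apply Finset.card_le_card
                intro u hu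
                rw [Finset.mem_insert, Finset.mem_filter] at hu
                rw [Finset.mem_filter]
                rcases hu with rfl | ⟨h1, h2⟩
                · exact ⟨hzS, le_refl _⟩
                · exact ⟨h1, by omega⟩
              have h4 := bet_mono S (show M ≤ z - 1 by omega)
              omega
            obtain ⟨g, hg⟩ : ∃ g, bet S z = bet S M + g := ⟨bet S z - bet S M, by omega⟩
            obtain ⟨hB₂T, hI⟩ := key (B + 1) (by omega)
            refine ⟨by omega, ?_⟩
            have hm := hG.mono'' hB₂T (N := need S z (π₁ ++ [z])) (by omega) (by omega)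
              (l := need S y (π₁ ++ [z])) (L := need S M π₁) (by omega) (by omega)
            have hc := hG.rb B (need S x π₁) (need S M π₁ - need S x π₁) g hB₂T (by omega)
              (by omega) (by omega) (by omega)
            rw [show need S x π₁ + (need S M π₁ - need S x π₁) = need S M π₁ by omega,
              show 2 * g - 1 = need S z (π₁ ++ [z]) - need S M π₁ by omega] at hc
            rw [hlen] at hI
            have e2 : ((π₁.length + 1 : ℕ) : ℤ) + (need S z (π₁ ++ [z]) : ℤ) =
                (π₁.length : ℤ) + (need S M π₁ : ℤ) + 2 * g := by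
              push_cast; omega
            rw [e2] at hI
            have e3 : sc * ((π₁.length : ℤ) + (need S M π₁ : ℤ) + 2 * g) =
                sc * ((π₁.length : ℤ) + (need S M π₁ : ℤ)) + 2 * g * sc := by ring
            linarith
          · rw [if_neg (by rintro ⟨h, -⟩; exact hzS h)] at e1
            have hbz := bet_le_of_not_mem S hzS
            obtain ⟨g, hg⟩ : ∃ g, bet S z = bet S M + g := ⟨bet S z - bet S M, by omega⟩
            obtain ⟨hB₂T, hI⟩ := key (B + 2) (by omega)
            refine ⟨by omega, ?_⟩
            have hm := hG.mono'' hB₂T (N := need S z (π₁ ++ [z])) (by omega) (by omega)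
              (l := need S y (π₁ ++ [z])) (L := need S M π₁) (by omega) (by omega)
            have hc := hG.rn B (need S x π₁) (need S M π₁ - need S x π₁) g hB₂T (by omega)
              (by omega) (by omega)
            rw [show need S x π₁ + (need S M π₁ - need S x π₁) = need S M π₁ by omega,
              show 2 * g = need S z (π₁ ++ [z]) - need S M π₁ by omega] at hc
            rw [hlen] at hI
            have e2 : ((π₁.length + 1 : ℕ) : ℤ) + (need S z (π₁ ++ [z]) : ℤ) =
                (π₁.length : ℤ) + (need S M π₁ : ℤ) + (2 * g + 1) := by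
              push_cast; omega
            rw [e2] at hI
            have e3 : sc * ((π₁.length : ℤ) + (need S M π₁ : ℤ) + (2 * g + 1)) =
                sc * ((π₁.length : ℤ) + (need S M π₁ : ℤ)) + (2 * g + 1) * sc := by ring
            linarith
      · -- a descent: a new run starts
        have hzx : z ≤ x := by
          have := hP.c1 π x y z s hPs
          rw [up_pos hxy, up_neg hyz] at this
          by_contra hc
          rw [up_pos (by omega)] at this
          omega
        cases s with
        | nil =>
          exfalso
          have := hlast (π ++ [x]) y z (by rw [hPs]; simp)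
          omega
        | cons z' s =>
          have hc1 := hP.c1 (π ++ [x]) y z z' s (by rw [hPs]; simp)
          rw [up_neg hyz] at hc1
          have hzz' : z < z' := by
            by_contra hc
            rw [up_neg hc] at hc1
            omega
          have hz'y : z' ≤ y := by
            by_contra hc
            rw [up_pos hzz', up_pos (by omega)] at hc1
            omega
          have hzM : z ≤ M := by omega
          have hz'M : z' ≤ M := by omega
          have hasc1 : asc (π₁ ++ [z]) = asc π₁ := by
            rw [hπ₁, show π ++ [x, y] ++ [z] = (π ++ [x]) ++ [y, z] by simp, asc_snoc,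
              if_neg hyz]
            simp
          have hasc : asc (π₁ ++ [z, z']) = asc π₁ + 1 := by
            rw [asc_snoc, if_pos hzz', hasc1]
          have hlen : (π₁ ++ [z, z']).length = π₁.length + 2 := by simp
          have hPs' : P = π₁ ++ z :: z' :: s := by rw [hPs, hπ₁]; simp
          have eM1 := need_snoc S M π₁ z
          have ex1 := need_snoc S x π₁ z
          have eM2 := need_snoc S M (π₁ ++ [z]) z'
          have ex2 := need_snoc S x (π₁ ++ [z]) z'
          rw [show π₁ ++ [z] ++ [z'] = π₁ ++ [z, z'] by simp] at eM2 ex2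
          have hmz : need S z (π₁ ++ [z, z']) ≤ need S x (π₁ ++ [z, z']) := need_mono S _ hzx
          have hmx : need S x (π₁ ++ [z, z']) ≤ need S M (π₁ ++ [z, z']) := need_mono S _ hxM
          have hmx1 : need S x (π₁ ++ [z]) ≤ need S M (π₁ ++ [z]) := need_mono S _ hxM
          have key : ∀ B₂, B₂ + 2 * bet S M = need S M (π₁ ++ [z, z']) + 2 * asc (π₁ ++ [z, z']) →
              B₂ ≤ T ∧ sc * P.length + G T 0 0 ≤
              sc * ((π₁ ++ [z, z']).length + need S M (π₁ ++ [z, z'])) +
              G B₂ (need S z (π₁ ++ [z, z'])) (need S M (π₁ ++ [z, z']) - need S z (π₁ ++ [z, z'])) := by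
            intro B₂ hB₂
            exact ih s π₁ z z' M B₂ (by simp at hs; omega) hPs' hzz'
              (by
                intro w hw
                simp only [List.mem_append, List.mem_cons, List.not_mem_nil, or_false] at hw
                rcases hw with hw | rfl | rfl
                · exact hM w hw
                · exact hzM
                · exact hz'M)
              (by rw [hasc]; omega) hB₂
          have hlen' : ∀ B₂ : ℕ, B₂ ≤ T → need S M (π₁ ++ [z, z']) ≤ B₂ + 2 →
              (B₂ + need S M (π₁ ++ [z, z'])) % 2 = 0 →
              G B₂ (need S z (π₁ ++ [z, z'])) (need S M (π₁ ++ [z, z']) - need S z (π₁ ++ [z, z']))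
              ≤ G B₂ (need S x (π₁ ++ [z, z'])) (need S M (π₁ ++ [z, z']) -
                need S x (π₁ ++ [z, z'])) := by
            intro B₂ h1 h2 h3
            exact hG.mono'' h1 h2 h3 hmz hmx
          by_cases hu1 : z ∈ S ∧ π₁.count z < 2
          · rw [if_pos ⟨hu1.1, hzM, hu1.2⟩] at eM1
            rw [if_pos ⟨hu1.1, hzx, hu1.2⟩] at ex1
            by_cases hu2 : z' ∈ S ∧ (π₁ ++ [z]).count z' < 2
            · rw [if_pos ⟨hu2.1, hz'M, hu2.2⟩] at eM2
              obtain ⟨hB₂T, hI⟩ := key B (by omega)
              have hm := hlen' B hB₂T (by omega) (by omega)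
              refine ⟨hB₂T, ?_⟩
              have e2 : (((π₁ ++ [z, z']).length : ℕ) : ℤ) + (need S M (π₁ ++ [z, z']) : ℤ) =
                  (π₁.length : ℤ) + (need S M π₁ : ℤ) := by
                rw [hlen]; push_cast; omega
              rw [e2] at hI
              by_cases hz'x : z' ≤ x
              · rw [if_pos ⟨hu2.1, hz'x, hu2.2⟩] at ex2
                have hc := hG.ll B (need S x (π₁ ++ [z, z']))
                  (need S M (π₁ ++ [z, z']) - need S x (π₁ ++ [z, z'])) hB₂T (by omega) (by omega)
                rw [show need S x (π₁ ++ [z, z']) + 2 = need S x π₁ by omega] at hc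
                rw [show need S M π₁ - need S x π₁ =
                  need S M (π₁ ++ [z, z']) - need S x (π₁ ++ [z, z']) by omega]
                linarith
              · rw [if_neg (by rintro ⟨-, h, -⟩; exact hz'x h)] at ex2
                have hc := hG.lh B (need S x (π₁ ++ [z, z']))
                  (need S M (π₁ ++ [z, z']) - need S x (π₁ ++ [z, z'])) hB₂T (by omega) (by omega)
                rw [show need S x (π₁ ++ [z, z']) + 1 = need S x π₁ by omega] at hc
                rw [show need S M π₁ - need S x π₁ =
                  need S M (π₁ ++ [z, z']) - need S x (π₁ ++ [z, z']) + 1 by omega]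
                linarith
            · rw [if_neg (by rintro ⟨h1, -, h2⟩; exact hu2 ⟨h1, h2⟩)] at eM2 ex2
              obtain ⟨hB₂T, hI⟩ := key (B + 1) (by omega)
              have hm := hlen' (B + 1) hB₂T (by omega) (by omega)
              refine ⟨by omega, ?_⟩
              have e2 : (((π₁ ++ [z, z']).length : ℕ) : ℤ) + (need S M (π₁ ++ [z, z']) : ℤ) =
                  (π₁.length : ℤ) + (need S M π₁ : ℤ) + 1 := by
                rw [hlen]; push_cast; omega
              rw [e2] at hI
              have e3 : sc * ((π₁.length : ℤ) + (need S M π₁ : ℤ) + 1) =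
                  sc * ((π₁.length : ℤ) + (need S M π₁ : ℤ)) + sc := by ring
              have hc := hG.le B (need S x (π₁ ++ [z, z']))
                (need S M (π₁ ++ [z, z']) - need S x (π₁ ++ [z, z'])) hB₂T (by omega) (by omega)
              rw [show need S x (π₁ ++ [z, z']) + 1 = need S x π₁ by omega] at hc
              rw [show need S M π₁ - need S x π₁ =
                need S M (π₁ ++ [z, z']) - need S x (π₁ ++ [z, z']) by omega]
              linarith
          · rw [if_neg (by rintro ⟨h1, -, h2⟩; exact hu1 ⟨h1, h2⟩)] at eM1 ex1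
            by_cases hu2 : z' ∈ S ∧ (π₁ ++ [z]).count z' < 2
            · rw [if_pos ⟨hu2.1, hz'M, hu2.2⟩] at eM2
              obtain ⟨hB₂T, hI⟩ := key (B + 1) (by omega)
              have hm := hlen' (B + 1) hB₂T (by omega) (by omega)
              refine ⟨by omega, ?_⟩
              have e2 : (((π₁ ++ [z, z']).length : ℕ) : ℤ) + (need S M (π₁ ++ [z, z']) : ℤ) =
                  (π₁.length : ℤ) + (need S M π₁ : ℤ) + 1 := by
                rw [hlen]; push_cast; omega
              rw [e2] at hI
              have e3 : sc * ((π₁.length : ℤ) + (need S M π₁ : ℤ) + 1) =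
                  sc * ((π₁.length : ℤ) + (need S M π₁ : ℤ)) + sc := by ring
              by_cases hz'x : z' ≤ x
              · rw [if_pos ⟨hu2.1, hz'x, hu2.2⟩] at ex2
                have hc := hG.le B (need S x (π₁ ++ [z, z']))
                  (need S M (π₁ ++ [z, z']) - need S x (π₁ ++ [z, z'])) hB₂T (by omega) (by omega)
                rw [show need S x (π₁ ++ [z, z']) + 1 = need S x π₁ by omega] at hc
                rw [show need S M π₁ - need S x π₁ =
                  need S M (π₁ ++ [z, z']) - need S x (π₁ ++ [z, z']) by omega]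
                linarith
              · rw [if_neg (by rintro ⟨-, h, -⟩; exact hz'x h)] at ex2
                have hc := hG.eh B (need S x (π₁ ++ [z, z']))
                  (need S M (π₁ ++ [z, z']) - need S x (π₁ ++ [z, z'])) hB₂T (by omega) (by omega)
                rw [show need S x π₁ = need S x (π₁ ++ [z, z']) by omega,
                  show need S M π₁ - need S x (π₁ ++ [z, z']) =
                  need S M (π₁ ++ [z, z']) - need S x (π₁ ++ [z, z']) + 1 by omega]
                linarith
            · rw [if_neg (by rintro ⟨h1, -, h2⟩; exact hu2 ⟨h1, h2⟩)] at eM2 ex2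
              obtain ⟨hB₂T, hI⟩ := key (B + 2) (by omega)
              have hm := hlen' (B + 2) hB₂T (by omega) (by omega)
              refine ⟨by omega, ?_⟩
              have e2 : (((π₁ ++ [z, z']).length : ℕ) : ℤ) + (need S M (π₁ ++ [z, z']) : ℤ) =
                  (π₁.length : ℤ) + (need S M π₁ : ℤ) + 2 := by
                rw [hlen]; push_cast; omega
              rw [e2] at hI
              have e3 : sc * ((π₁.length : ℤ) + (need S M π₁ : ℤ) + 2) =
                  sc * ((π₁.length : ℤ) + (need S M π₁ : ℤ)) + 2 * sc := by ring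
              have hc := hG.ee B (need S x (π₁ ++ [z, z']))
                (need S M (π₁ ++ [z, z']) - need S x (π₁ ++ [z, z'])) hB₂T (by omega) (by omega)
              rw [show need S x π₁ = need S x (π₁ ++ [z, z']) by omega,
                show need S M π₁ = need S M (π₁ ++ [z, z']) by omega]
              rw [show need S M π₁ = need S M (π₁ ++ [z, z']) by omega] at hI e3
              linarith

end Pool.Agent.R7.Asc
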