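import Pool.Agent.R7.Asc.Defs

/-!
# Local structure of `δ_k`-minimal ascent sequences
-/

set_option autoImplicit false

namespace Pool.Agent.R7.Asc

/-- Indicator of `a < b`. -/
def up (a b : ℕ) : ℕ := if a < b then 1 else 0

lemma up_pos {a b : ℕ} (h : a < b) : up a b = 1 := by simp [up, h]
lemma up_neg {a b : ℕ} (h : ¬ a < b) : up a b = 0 := by simp [up, h]

/-- The properties of the prefix `P` that we use. -/
structure Good (k : ℕ) (P : List ℕ) (S : Finset ℕ) : Prop where
  val : ∀ a x b, P = a ++ x :: b → x ≤ bnd a
  c1 : ∀ a p x q b, P = a ++ p :: x :: q :: b → up p x + up x q = up p q + 1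
  c2 : ∀ u ∈ S, 2 ≤ P.count u
  low : S.card + k ≤ asc P + 2
  c3 : ∀ a b, P = a ++ b → a ≠ [] → b ≠ [] → asc a + 3 ≤ S.card + k
  ne : P ≠ []

lemma valid_of {P w : List ℕ} {v : ℕ} (hw : ∀ u ∈ w, u < v)
    (h1 : ∀ a x b, P = a ++ x :: b → rk (P ++ v :: w) x ≤ bnd a)
    (h2 : rk (P ++ v :: w) v ≤ bnd P) : Valid (P ++ v :: w) := by
  intro a x b hab
  rw [List.append_eq_append_iff] at hab
  rcases hab with ⟨a', rfl, h⟩ | ⟨c', rfl, h⟩
  · cases a' with
    | nil =>
      simp only [List.nil_append, List.cons.injEq] at h
      obtain ⟨rfl, rfl⟩ := h
      simpa using h2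
    | cons z a'' =>
      simp only [List.cons_append, List.cons.injEq] at h
      obtain ⟨rfl, rfl⟩ := h
      have hx : x < v := hw x (by simp)
      exact (rk_mono _ hx.le).trans (h2.trans (bnd_le_append _ _))
  · cases c' with
    | nil =>
      simp only [List.nil_append, List.cons.injEq] at h
      obtain ⟨rfl, rfl⟩ := h
      simpa using h2
    | cons z c'' =>
      simp only [List.cons_append, List.cons.injEq] at h
      obtain ⟨rfl, rfl⟩ := h
      exact h1 a x c'' rfl

lemma exists_good {k : ℕ} (hk : 3 ≤ k) {σ : List ℕ} (h : IsMinimal (delta k) σ) :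
    ∃ (P : List ℕ) (S : Finset ℕ), σ.length = P.length + k ∧ Good k P S := by
  obtain ⟨s, hs, hso⟩ := h.2.1
  rw [ordIso_delta_iff] at hso
  obtain ⟨hsl, hsp⟩ := hso
  obtain ⟨v, w, rfl⟩ : ∃ v w, s = v :: w := by
    cases s with
    | nil => simp at hsl; omega
    | cons v w => exact ⟨v, w, rfl⟩
  rw [List.length_cons] at hsl
  have hwv : ∀ u ∈ w, u < v := fun u hu => (List.pairwise_cons.mp hsp).1 u hu
  rw [List.cons_sublist_iff] at hs
  obtain ⟨r₁, r₂, hσ, hvr, hwr⟩ := hs
  obtain ⟨P, c, rfl⟩ := List.append_of_mem hvr
  have hσval := (isAscSeq_iff σ).mp h.1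
  -- the whole sequence is `P ++ v :: w`
  have hsub : (P ++ v :: w).Sublist σ := by
    rw [hσ, List.append_assoc, List.cons_append]
    exact List.Sublist.append_left
      (List.Sublist.cons_cons _ (List.sublist_append_of_sublist_right hwr)) _
  have hPval' : ∀ a x b, P = a ++ x :: b → x ≤ bnd a := by
    intro a x b hP
    apply hσval a x (b ++ v :: (c ++ r₂))
    rw [hσ, hP]; simp
  have hvP' : v ≤ bnd P := by
    apply hσval P v (c ++ r₂)
    rw [hσ]; simp
  have heq : P ++ v :: w = σ := by
    apply hsub.eq_of_length_le
    by_contra hc
    refine not_valid_of_minimal h hsub (by omega) (s := v :: w) (List.sublist_append_right _ _)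
      (by simpa using hsl) hsp ?_
    apply valid_of hwv
    · intro a x b hP
      exact (rk_le _ _).trans (hPval' a x b hP)
    · exact (rk_le _ _).trans hvP'
  clear hσ hsub hwr hvr
  subst heq
  -- the working form of minimality
  have hmin : ∀ Q : List ℕ, Q.Sublist P → Q.length < P.length →
      (∀ a x b, Q = a ++ x :: b → rk (Q ++ v :: w) x ≤ bnd a) →
      ¬ rk (Q ++ v :: w) v ≤ bnd Q := by
    intro Q hQ hl h1 h2
    refine not_valid_of_minimal h (l := Q ++ v :: w) (s := v :: w) (hQ.append_right _)
      (by simp; omega) (List.sublist_append_right _ _) (by simpa using hsl) hsp ?_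
    exact valid_of hwv h1 h2
  have hPne : P ≠ [] := by
    rintro rfl
    rw [bnd_nil] at hvP'
    have : w ≠ [] := by
      rintro rfl
      simp at hsl
      omega
    obtain ⟨u, hu⟩ := List.exists_mem_of_ne_nil w this
    have := hwv u hu
    omega
  set S : Finset ℕ := P.toFinset.filter (fun u => u < v ∧ u ∉ w) with hS
  have hwnd : w.Nodup := by
    have := (List.pairwise_cons.mp hsp).2
    exact this.imp (fun h => ne_of_gt h)
  refine ⟨P, S, by simp; omega, ?_⟩
  refine ⟨hPval', ?_, ?_, ?_, ?_, hPne⟩
  · -- c1
    intro a p x q b hP
    by_contra hne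
    have hup : up p x + up x q = up p q := by
      unfold up at hne ⊢
      split_ifs at hne ⊢ <;> omega
    have hup' : (if p < x then 1 else 0) + (if x < q then 1 else 0) =
        (if p < q then (1 : ℕ) else 0) := hup
    have hbnd : ∀ c, bnd (a ++ p :: x :: q :: c) = bnd (a ++ p :: q :: c) := by
      intro c
      rw [bnd_of_ne (by simp), bnd_of_ne (by simp), asc_delete a p x q c hup']
    have hQ : (a ++ p :: q :: b).Sublist P := by
      rw [hP]
      apply List.Sublist.append_left
      apply List.Sublist.cons_cons
      exact List.sublist_cons_self _ _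
    refine hmin (a ++ p :: q :: b) hQ (by rw [hP]; simp) ?_ ?_
    · intro a₁ y b₁ hab
      refine (rk_le _ _).trans ?_
      rw [List.append_eq_append_iff] at hab
      rcases hab with ⟨a', rfl, h'⟩ | ⟨c', rfl, h'⟩
      · cases a' with
        | nil =>
          simp only [List.nil_append, List.cons.injEq] at h'
          obtain ⟨rfl, -⟩ := h'
          rw [List.append_nil]
          exact hPval' _ _ _ hP
        | cons z a'' =>
          simp only [List.cons_append, List.cons.injEq] at h'
          obtain ⟨rfl, h'⟩ := h'
          cases a'' with
          | nil =>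
            simp only [List.nil_append, List.cons.injEq] at h'
            obtain ⟨rfl, rfl⟩ := h'
            by_cases hpx : p < x
            · have hxq : ¬ x < q := by
                intro hxq
                rw [up_pos hpx, up_pos hxq] at hup
                unfold up at hup
                split_ifs at hup <;> omega
              have := hPval' (a ++ [p]) x (q :: b) (by rw [hP]; simp)
              omega
            · have h3 := hPval' (a ++ [p, x]) q b (by rw [hP]; simp)
              rw [bnd_of_ne (by simp), asc_snoc, if_neg hpx] at h3
              rw [bnd_of_ne (by simp)]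
              simpa using h3
          | cons z' a''' =>
            simp only [List.cons_append, List.cons.injEq] at h'
            obtain ⟨rfl, rfl⟩ := h'
            rw [← hbnd]
            apply hPval' _ _ b₁
            rw [hP]; simp
      · cases c' with
        | nil =>
          simp only [List.nil_append, List.cons.injEq] at h'
          obtain ⟨rfl, -⟩ := h'
          apply hPval' a₁ y (x :: q :: b)
          rw [hP]; simp
        | cons z c'' =>
          simp only [List.cons_append, List.cons.injEq] at h'
          obtain ⟨rfl, -⟩ := h'
          apply hPval' a₁ y (c'' ++ p :: x :: q :: b)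
          rw [hP]; simp
    · rw [← hbnd, ← hP]
      exact (rk_le _ _).trans hvP'
  · -- c2
    intro u hu
    rw [hS, Finset.mem_filter, List.mem_toFinset] at hu
    obtain ⟨huP, huv, huw⟩ := hu
    by_contra hc
    have hpos : 0 < P.count u := List.count_pos_iff.mpr huP
    have hcount : P.count u = 1 := by omega
    obtain ⟨a, b, hP⟩ := List.append_of_mem huP
    rw [hP, List.count_append, List.count_cons_self] at hcount
    have hua : u ∉ a := by
      intro h'
      have := List.count_pos_iff.mpr h'
      omega
    have hub : u ∉ b := by
      intro h'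
      have := List.count_pos_iff.mpr h'
      omega
    have hul : u ∉ (a ++ b) ++ v :: w := by
      simp only [List.mem_append, List.mem_cons, not_or]
      exact ⟨⟨hua, hub⟩, by omega, huw⟩
    have key : ∀ c : List ℕ, ∀ y, u < y → y ≤ bnd (a ++ u :: c) →
        rk ((a ++ b) ++ v :: w) y ≤ bnd (a ++ c) := by
      intro c y huy hy
      have h1 := rk_lt_of_not_mem hul huy
      rw [bnd_of_ne (by simp)] at hy
      by_cases hac : a ++ c = []
      · have h2 : a = [] := (List.append_eq_nil_iff.mp hac).1
        have h3 : c = [] := (List.append_eq_nil_iff.mp hac).2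
        subst h2; subst h3
        simp [asc] at hy
        omega
      · rw [bnd_of_ne hac]
        have := asc_insert_le a u c
        omega
    have hcase : ∀ a' y b₁, b = a' ++ y :: b₁ → rk ((a ++ b) ++ v :: w) y ≤ bnd (a ++ a') := by
      intro a' y b₁ hb
      have h3 := hPval' (a ++ u :: a') y b₁ (by rw [hP, hb]; simp)
      rcases lt_trichotomy u y with huy | huy | huy
      · exact key a' y huy h3
      · exfalso; apply hub; rw [huy, hb]; simp
      · have h4 := hPval' a u b hP
        have hane : a ≠ [] := by
          rintro rfl
          rw [bnd_nil] at h4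
          omega
        have hane' : a ++ a' ≠ [] := by simp [hane]
        rw [bnd_of_ne hane] at h4
        rw [bnd_of_ne hane']
        have h5 := asc_le_append a a'
        have h6 := rk_le ((a ++ b) ++ v :: w) y
        omega
    refine hmin (a ++ b) ?_ (by rw [hP]; simp) ?_ ?_
    · rw [hP]
      exact List.Sublist.append_left (List.sublist_cons_self _ _) _
    · intro a₁ y b₁ hab
      rw [List.append_eq_append_iff] at hab
      rcases hab with ⟨a', rfl, hb⟩ | ⟨c', rfl, h'⟩
      · exact hcase a' y b₁ hb
      · cases c' with
        | nil =>
          simp only [List.nil_append] at h'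
          simpa using hcase [] y b₁ h'.symm
        | cons z c'' =>
          simp only [List.cons_append, List.cons.injEq] at h'
          obtain ⟨rfl, rfl⟩ := h'
          refine (rk_le _ _).trans ?_
          apply hPval' a₁ y (c'' ++ u :: b)
          rw [hP]; simp
    · exact key b v huv (by rw [← hP]; exact hvP')
  · -- low
    have h1 : S.card + w.toFinset.card ≤ v := by
      rw [← Finset.card_union_of_disjoint]
      · calc (S ∪ w.toFinset).card ≤ (Finset.range v).card := by
              apply Finset.card_le_card
              intro u hu
              rw [Finset.mem_union, hS, Finset.mem_filter, List.mem_toFinset] at hu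
              rw [Finset.mem_range]
              rcases hu with hu | hu
              · exact hu.2.1
              · exact hwv u (List.mem_toFinset.mp hu)
          _ = v := Finset.card_range v
      · rw [Finset.disjoint_left]
        intro u hu hu'
        rw [hS, Finset.mem_filter] at hu
        exact hu.2.2 (List.mem_toFinset.mp hu')
    rw [List.toFinset_card_of_nodup hwnd] at h1
    rw [bnd_of_ne hPne] at hvP'
    omega
  · -- c3
    intro a b hP ha hb
    by_contra hc
    refine hmin a ?_ ?_ ?_ ?_
    · rw [hP]; exact List.sublist_append_left _ _
    · rw [hP, List.length_append]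
      have : 0 < b.length := List.length_pos_of_ne_nil hb
      omega
    · intro a₁ y b₁ hab
      refine (rk_le _ _).trans ?_
      apply hPval' a₁ y (b₁ ++ b)
      rw [hP, hab]; simp
    · rw [bnd_of_ne ha]
      have h1 : rk (a ++ v :: w) v ≤ S.card + w.length := by
        unfold rk
        calc ((a ++ v :: w).toFinset.filter (· < v)).card ≤ (S ∪ w.toFinset).card := by
              apply Finset.card_le_card
              intro u hu
              simp only [Finset.mem_filter, List.mem_toFinset, List.mem_append, List.mem_cons] at hu
              rw [Finset.mem_union, hS, Finset.mem_filter, List.mem_toFinset, List.mem_toFinset]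
              obtain ⟨h1 | h1 | h1, h2⟩ := hu
              · by_cases huw : u ∈ w
                · exact Or.inr huw
                · exact Or.inl ⟨by rw [hP]; exact List.mem_append_left _ h1, h2, huw⟩
              · omega
              · exact Or.inr h1
          _ ≤ S.card + w.toFinset.card := Finset.card_union_le _ _
          _ ≤ S.card + w.length := by
              have := List.toFinset_card_le w
              omega
      omega

end Pool.Agent.R7.Asc
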